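import Mathlib
import Pool.Agent.H8.KA.Lib.R_seed8.H119R2.Kp.Defs
import Pool.Agent.H8.KA.Lib.R_seed8.H119R2.Kp.PVE
import Pool.Agent.H8.KA.Lib.R_seed8.H119R2.Kp.Rel

set_option autoImplicit false

/-!
MP_257582_lc (helper78): the relation for `k` blocks of prime size `p` and `r` fixed vertices, where
the cyclic part of the group permutes the blocks by `π` and multiplies inside the blocks.
-/

namespace Pool.Agent.W5h78.Karp

open Finset
open Pool.Agent.H98R2.Ev (EV toG NE)
open Pool.Agent.H119R2.Kp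

/-- vertices: `r` fixed vertices and `k` blocks -/
abbrev VV (k r p : ℕ) : Type := Fin r ⊕ (Fin k × ZMod p)

/-- the part of a vertex -/
def prt {k r p : ℕ} : VV k r p → Fin (k + 1)
  | .inl _ => 0
  | .inr (i, _) => i.succ

/-- translation of block `b` -/
def tr {k r p : ℕ} (b : Fin k) (t : ZMod p) : Equiv.Perm (VV k r p) :=
  Equiv.sumCongr (Equiv.refl _)
    (Equiv.prodShear (Equiv.refl _) (fun b' => Equiv.addRight (if b' = b then t else 0)))

@[simp] theorem tr_inl {k r p : ℕ} (b : Fin k) (t : ZMod p) (a : Fin r) :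
    tr b t (Sum.inl a : VV k r p) = Sum.inl a := rfl

@[simp] theorem tr_inr {k r p : ℕ} (b b' : Fin k) (t u : ZMod p) :
    tr b t (Sum.inr (b', u) : VV k r p) = Sum.inr (b', u + if b' = b then t else 0) := rfl

/-- permutation of the blocks combined with multiplications -/
def rc {k r p : ℕ} (π : Equiv.Perm (Fin k)) (m : Fin k → (ZMod p)ˣ) : Equiv.Perm (VV k r p) :=
  Equiv.sumCongr (Equiv.refl _) (Equiv.prodShear π (fun b => Units.mulLeft (m b)))

@[simp] theorem rc_inl {k r p : ℕ} (π : Equiv.Perm (Fin k)) (m : Fin k → (ZMod p)ˣ) (a : Fin r) :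
    rc π m (Sum.inl a : VV k r p) = Sum.inl a := rfl

@[simp] theorem rc_inr {k r p : ℕ} (π : Equiv.Perm (Fin k)) (m : Fin k → (ZMod p)ˣ) (i : Fin k)
    (u : ZMod p) : rc π m (Sum.inr (i, u) : VV k r p) = Sum.inr (π i, m i * u) := rfl

/-- the product of the multipliers along the orbit -/
def mm {k p : ℕ} (π : Equiv.Perm (Fin k)) (m : Fin k → (ZMod p)ˣ) : ℕ → Fin k → (ZMod p)ˣ
  | 0, _ => 1
  | t + 1, i => m ((π ^ t) i) * mm π m t i

theorem rc_pow_inl {k r p : ℕ} (π : Equiv.Perm (Fin k)) (m : Fin k → (ZMod p)ˣ) (t : ℕ)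
    (a : Fin r) : (rc π m ^ t) (Sum.inl a : VV k r p) = Sum.inl a := by
  induction t with
  | zero => rfl
  | succ t ih => rw [pow_succ', Equiv.Perm.mul_apply, ih, rc_inl]

theorem rc_pow_inr {k r p : ℕ} (π : Equiv.Perm (Fin k)) (m : Fin k → (ZMod p)ˣ) (t : ℕ)
    (i : Fin k) (u : ZMod p) :
    (rc π m ^ t) (Sum.inr (i, u) : VV k r p) = Sum.inr ((π ^ t) i, mm π m t i * u) := by
  induction t with
  | zero => simp [mm]
  | succ t ih =>
    rw [pow_succ', Equiv.Perm.mul_apply, ih, rc_inr, pow_succ', Equiv.Perm.mul_apply, mm,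
      Units.val_mul, mul_assoc]

/-- number of marked blocks along the orbit -/
def mc {k : ℕ} (π : Equiv.Perm (Fin k)) (mk : Fin k → Bool) : ℕ → Fin k → ℕ
  | 0, _ => 0
  | t + 1, i => (if mk ((π ^ t) i) then 1 else 0) + mc π mk t i

theorem mm_mc {k p : ℕ} (π : Equiv.Perm (Fin k)) (mk : Fin k → Bool) (μ : (ZMod p)ˣ) (t : ℕ)
    (i : Fin k) : mm π (fun b => if mk b then μ else 1) t i = μ ^ mc π mk t i := by
  induction t with
  | zero => simp [mm, mc]
  | succ t ih =>
    rw [mm, mc, ih, pow_add]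
    split_ifs <;> simp

theorem prt_tr {k r p : ℕ} (b : Fin k) (t : ZMod p) (w : VV k r p) :
    prt (tr b t w) = prt w := by
  rcases w with a | ⟨b', u⟩ <;> rfl

/-- the permutation of the parts -/
def pip {k : ℕ} (π : Equiv.Perm (Fin k)) : Fin (k + 1) → Fin (k + 1) :=
  Fin.cases 0 (fun i => (π i).succ)

theorem prt_rc {k r p : ℕ} (π : Equiv.Perm (Fin k)) (m : Fin k → (ZMod p)ˣ) (w : VV k r p) :
    prt (rc π m w) = pip π (prt w) := by
  rcases w with a | ⟨i, u⟩ <;> rfl

theorem tr_add {k r p : ℕ} (b : Fin k) (t t' : ZMod p) :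
    (tr b t * tr b t' : Equiv.Perm (VV k r p)) = tr b (t + t') := by
  ext w
  rcases w with a | ⟨b', u⟩
  · simp
  · simp only [Equiv.Perm.mul_apply, tr_inr]
    split_ifs
    · rw [add_assoc, add_comm t']
    · simp

theorem tr_zero {k r p : ℕ} (b : Fin k) : (tr b 0 : Equiv.Perm (VV k r p)) = 1 := by
  ext w
  rcases w with a | ⟨b', u⟩
  · simp
  · simp

theorem tr_pow {k r p : ℕ} (b : Fin k) (t : ℕ) :
    (tr b 1 : Equiv.Perm (VV k r p)) ^ t = tr b (t : ZMod p) := by
  induction t with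
  | zero => simp [tr_zero]
  | succ t ih => rw [pow_succ, ih, tr_add]; simp

theorem tr_comm {k r p : ℕ} (b b' : Fin k) (t t' : ZMod p) :
    (tr b t * tr b' t' : Equiv.Perm (VV k r p)) = tr b' t' * tr b t := by
  ext w
  rcases w with a | ⟨b'', u⟩
  · simp
  · simp only [Equiv.Perm.mul_apply, tr_inr]
    rw [add_assoc, add_assoc, add_comm (if b'' = b' then t' else 0)]

theorem conj {k r p : ℕ} (π : Equiv.Perm (Fin k)) (m : Fin k → (ZMod p)ˣ) (i : Fin k) :
    ((rc π m)⁻¹ * tr (π i) 1 * rc π m : Equiv.Perm (VV k r p)) =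
      tr i (((m i)⁻¹ : (ZMod p)ˣ) : ZMod p) := by
  rw [mul_assoc, inv_mul_eq_iff_eq_mul]
  ext w
  rcases w with a | ⟨j, u⟩
  · rfl
  · by_cases h : j = i
    · subst h
      simp [mul_add]
    · have h' : π j ≠ π i := fun hh => h (π.injective hh)
      simp [h, h']

theorem tr_mem {k r p : ℕ} [NeZero p] (b : Fin k) (t : ZMod p) :
    (tr b t : Equiv.Perm (VV k r p)) ∈
      Subgroup.closure (Set.range (fun b : Fin k => (tr b 1 : Equiv.Perm (VV k r p)))) := by
  have h : (tr b t : Equiv.Perm (VV k r p)) = (tr b 1) ^ t.val := by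
    rw [tr_pow, ZMod.natCast_zmod_val]
  rw [h]
  exact Subgroup.pow_mem _ (Subgroup.subset_closure (Set.mem_range_self (f := fun b : Fin k =>
    (tr b 1 : Equiv.Perm (VV k r p))) b)) _

/-- the group -/
def GG (k r p : ℕ) (π : Equiv.Perm (Fin k)) (m : Fin k → (ZMod p)ˣ) :
    Subgroup (Equiv.Perm (VV k r p)) :=
  Subgroup.closure (insert (rc π m) (Set.range (fun b : Fin k => tr b 1)))

theorem tr_memG {k r p : ℕ} [NeZero p] (π : Equiv.Perm (Fin k)) (m : Fin k → (ZMod p)ˣ)
    (b : Fin k) (t : ZMod p) : (tr b t : Equiv.Perm (VV k r p)) ∈ GG k r p π m :=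
  Subgroup.closure_mono (Set.subset_insert _ _) (tr_mem b t)

theorem rc_memG {k r p : ℕ} (π : Equiv.Perm (Fin k)) (m : Fin k → (ZMod p)ˣ) (t : ℕ) :
    (rc π m ^ t : Equiv.Perm (VV k r p)) ∈ GG k r p π m :=
  Subgroup.pow_mem _ (Subgroup.subset_closure (Set.mem_insert _ _)) _

/-- pairs in different blocks -/
theorem trans2 {k r p : ℕ} [NeZero p] (π : Equiv.Perm (Fin k)) (m : Fin k → (ZMod p)ˣ)
    (A B : Fin k) (hAB : A ≠ B) (a b : ZMod p) (t : ℕ) (a' b' : ZMod p) :
    ∃ g ∈ GG k r p π m, g (Sum.inr (A, a)) = Sum.inr ((π ^ t) A, a') ∧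
      g (Sum.inr (B, b)) = Sum.inr ((π ^ t) B, b') := by
  have hne : (π ^ t) A ≠ (π ^ t) B := fun h => hAB ((π ^ t).injective h)
  refine ⟨tr ((π ^ t) A) (a' - (mm π m t A : ZMod p) * a) *
    (tr ((π ^ t) B) (b' - (mm π m t B : ZMod p) * b) *
    rc π m ^ t), Subgroup.mul_mem _ (tr_memG _ _ _ _) (Subgroup.mul_mem _ (tr_memG _ _ _ _)
    (rc_memG _ _ _)), ?_, ?_⟩
  · rw [Equiv.Perm.mul_apply, Equiv.Perm.mul_apply, rc_pow_inr, tr_inr, tr_inr]
    simp [hne]
  · rw [Equiv.Perm.mul_apply, Equiv.Perm.mul_apply, rc_pow_inr, tr_inr, tr_inr]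
    simp [hne.symm]

/-- pairs in the same block -/
theorem trans3 {k r p : ℕ} [Fact p.Prime] (π : Equiv.Perm (Fin k)) (m : Fin k → (ZMod p)ˣ)
    (μ : (ZMod p)ˣ) (hμ : ∀ x, x ∈ Subgroup.zpowers μ)
    (hm : ∀ i, ∃ t, (π ^ t) i = i ∧ mm π m t i = μ)
    (A : Fin k) (a b : ZMod p) (hab : a ≠ b) (t : ℕ) (a' b' : ZMod p) (hab' : a' ≠ b') :
    ∃ g ∈ GG k r p π m, g (Sum.inr (A, a)) = Sum.inr ((π ^ t) A, a') ∧
      g (Sum.inr (A, b)) = Sum.inr ((π ^ t) A, b') := by
  have : NeZero p := ⟨(Fact.out : p.Prime).ne_zero⟩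
  set C := (π ^ t) A with hC
  set x : ZMod p := mm π m t A * a with hx
  set y : ZMod p := mm π m t A * b with hy
  have hxy : x - y ≠ 0 := by
    rw [hx, hy, ← mul_sub]
    exact mul_ne_zero (Units.ne_zero _) (sub_ne_zero.2 hab)
  have hxy' : a' - b' ≠ 0 := sub_ne_zero.2 hab'
  obtain ⟨t0, ht0, ht1⟩ := hm C
  obtain ⟨s, hs⟩ : ∃ s : ℕ, μ ^ s = Units.mk0 (a' - b') hxy' / Units.mk0 (x - y) hxy := by
    have := hμ (Units.mk0 (a' - b') hxy' / Units.mk0 (x - y) hxy)
    rwa [← mem_powers_iff_mem_zpowers] at this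
  have hs' : (μ : ZMod p) ^ s * (x - y) = a' - b' := by
    have h := congrArg (fun x : (ZMod p)ˣ => (x : ZMod p)) hs
    simp only [Units.val_pow_eq_pow_val, Units.val_div_eq_div_val, Units.val_mk0] at h
    rw [h]
    field_simp
  have hpow : ∀ (s : ℕ) (z : ZMod p), ((rc π m ^ t0) ^ s) (Sum.inr (C, z) : VV k r p) =
      Sum.inr (C, (μ : ZMod p) ^ s * z) := by
    intro s z
    induction s with
    | zero => simp
    | succ s ih =>
      rw [pow_succ', Equiv.Perm.mul_apply, ih, rc_pow_inr, ht0, ht1, pow_succ', mul_assoc]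
  refine ⟨tr C (a' - (μ : ZMod p) ^ s * x) * ((rc π m ^ t0) ^ s * rc π m ^ t),
    Subgroup.mul_mem _ (tr_memG _ _ _ _) (Subgroup.mul_mem _ (Subgroup.pow_mem _ (rc_memG _ _ _) _)
    (rc_memG _ _ _)), ?_, ?_⟩
  · rw [Equiv.Perm.mul_apply, Equiv.Perm.mul_apply, rc_pow_inr, ← hC, hpow, tr_inr]
    simp [hx]
  · rw [Equiv.Perm.mul_apply, Equiv.Perm.mul_apply, rc_pow_inr, ← hC, hpow, tr_inr, if_pos rfl,
      ← hy]
    congr 2
    linear_combination -hs'

/-- adjacency of parts -/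
def ad {k : ℕ} (Γ : Fin k → Fin k → Bool) (A B : Fin k) : Bool := Γ A B || Γ B A

theorem ad_comm {k : ℕ} (Γ : Fin k → Fin k → Bool) (A B : Fin k) : ad Γ A B = ad Γ B A := by
  simp [ad, Bool.or_comm]

/-- pattern graph -/
def PG {k r p : ℕ} (Γ : Fin (k + 1) → Fin (k + 1) → Bool) : SimpleGraph (VV k r p) where
  Adj u v := u ≠ v ∧ ad Γ (prt u) (prt v) = true
  symm := ⟨fun u v h => ⟨h.1.symm, by rw [ad_comm]; exact h.2⟩⟩
  loopless := ⟨fun _ h => h.1 rfl⟩

theorem PG_adj {k r p : ℕ} (Γ : Fin (k + 1) → Fin (k + 1) → Bool) (u v : VV k r p) :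
    (PG Γ : SimpleGraph (VV k r p)).Adj u v ↔ u ≠ v ∧ ad Γ (prt u) (prt v) = true := Iff.rfl

theorem fib {k r p : ℕ} [NeZero p] (A : Fin (k + 1)) :
    Fintype.card {w : VV k r p // prt w = A} = sz k r p A := by
  refine Fin.cases ?_ (fun B => ?_) A
  · have e : {w : VV k r p // prt w = 0} ≃ Fin r :=
      { toFun := fun w => match w with
          | ⟨Sum.inl a, _⟩ => a
          | ⟨Sum.inr (b, _), h⟩ => absurd h (Fin.succ_ne_zero b)
        invFun := fun a => ⟨Sum.inl a, rfl⟩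
        left_inv := by
          rintro ⟨a | ⟨b, u⟩, h⟩
          · rfl
          · exact absurd h (Fin.succ_ne_zero b)
        right_inv := fun a => rfl }
    rw [Fintype.card_congr e, Fintype.card_fin]
    rfl
  · have e : {w : VV k r p // prt w = B.succ} ≃ ZMod p :=
      { toFun := fun w => match w with
          | ⟨Sum.inl a, _⟩ => 0
          | ⟨Sum.inr (_, u), _⟩ => u
        invFun := fun u => ⟨Sum.inr (B, u), rfl⟩
        left_inv := by
          rintro ⟨a | ⟨b', u⟩, h⟩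
          · exact absurd h.symm (Fin.succ_ne_zero _)
          · simp only [prt] at h
            have := Fin.succ_injective _ h
            subst this
            rfl
        right_inv := fun a => rfl }
    rw [Fintype.card_congr e, ZMod.card]
    rfl

theorem exists_equiv (k r p : ℕ) [NeZero p] :
    ∃ e : VV k r p ≃ Σ i : Fin (k + 1), Fin (sz k r p i), ∀ w, (e w).1 = prt w := by
  classical
  refine ⟨(Equiv.sigmaFiberEquiv prt).symm.trans
    (Equiv.sigmaCongrRight (fun A => Fintype.equivFinOfCardEq (fib A))), ?_⟩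
  intro w
  rfl

theorem PV_PG {n q : ℕ} {P : SimpleGraph (Fin n) → Prop} (hP : GP n q P) (k r p : ℕ)
    [NeZero p] (Γ : Fin (k + 1) → Fin (k + 1) → Bool) :
    PV P (VV k r p) (PG Γ) ↔ PV P _ (BU (sz k r p) Γ) := by
  obtain ⟨e, he⟩ := exists_equiv k r p
  constructor
  · apply PV.mono hP e
    intro u v h
    refine ⟨fun h' => h.1 (e.injective h'), ?_⟩
    rw [he, he]
    simpa [ad] using h.2
  · apply PV.mono hP e.symm
    intro u v h
    refine ⟨fun h' => h.1 (e.symm.injective h'), ?_⟩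
    rw [← he, ← he, e.apply_symm_apply, e.apply_symm_apply]
    simpa [ad] using h.2

/-- base pattern plus the classes in `I` -/
def addP {k m : ℕ} (Γ : Fin k → Fin k → Bool) (O : Fin m → Fin k → Fin k → Bool)
    (I : Finset (Fin m)) : Fin k → Fin k → Bool :=
  fun a b => Γ a b || decide (∃ j ∈ I, O j a b = true)

theorem PG_sup {k r p m : ℕ} (Γ : Fin (k + 1) → Fin (k + 1) → Bool)
    (O : Fin m → Fin (k + 1) → Fin (k + 1) → Bool) (I : Finset (Fin m)) :
    (PG Γ ⊔ ⨆ j ∈ I, PG (O j) : SimpleGraph (VV k r p)) = PG (addP Γ O I) := by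
  ext u v
  simp only [SimpleGraph.sup_adj, SimpleGraph.iSup_adj, PG_adj, ad, addP]
  simp only [Bool.or_eq_true, decide_eq_true_eq]
  constructor
  · rintro (⟨h1, h2⟩ | ⟨j, hj, h1, h2⟩)
    · exact ⟨h1, h2.imp Or.inl Or.inl⟩
    · exact ⟨h1, h2.imp (fun h => Or.inr ⟨j, hj, h⟩) (fun h => Or.inr ⟨j, hj, h⟩)⟩
  · rintro ⟨h1, (h2 | ⟨j, hj, h2⟩) | (h2 | ⟨j, hj, h2⟩)⟩
    · exact Or.inl ⟨h1, Or.inl h2⟩
    · exact Or.inr ⟨j, hj, h1, Or.inl h2⟩
    · exact Or.inl ⟨h1, Or.inr h2⟩
    · exact Or.inr ⟨j, hj, h1, Or.inr h2⟩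

/-- number of ordered adjacent pairs -/
def cnt {k : ℕ} (s : Fin k → ℕ) (Γ : Fin k → Fin k → Bool) : ℕ :=
  ∑ A, ∑ B, if ad Γ A B = true then (if A = B then s A * (s A - 1) else s A * s B) else 0

theorem card_PG (k r p : ℕ) [NeZero p] (Γ : Fin (k + 1) → Fin (k + 1) → Bool) :
    2 * Nat.card (PG Γ : SimpleGraph (VV k r p)).edgeSet = cnt (sz k r p) Γ := by
  classical
  set G : SimpleGraph (VV k r p) := PG Γ with hG
  have h1 : Nat.card G.edgeSet = G.edgeFinset.card := by
    rw [Nat.card_eq_fintype_card, SimpleGraph.edgeFinset_card]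
  rw [h1, ← SimpleGraph.sum_degrees_eq_twice_card_edges]
  have h2 : ∀ v : VV k r p, G.degree v =
      ∑ B, if ad Γ (prt v) B = true then (if prt v = B then sz k r p B - 1 else
        sz k r p B) else 0 := by
    intro v
    rw [← SimpleGraph.card_neighborFinset_eq_degree]
    rw [Finset.card_eq_sum_card_fiberwise (f := prt) (t := univ)
      (fun _ _ => Finset.mem_coe.mpr (mem_univ _))]
    apply Finset.sum_congr rfl
    intro B _
    have hfib : (univ.filter (fun w : VV k r p => prt w = B)).card = sz k r p B := by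
      rw [← fib B, Fintype.card_subtype]
    split_ifs with h3 h4
    · have : (G.neighborFinset v).filter (fun w => prt w = B) =
          (univ.filter (fun w : VV k r p => prt w = B)).erase v := by
        ext w
        simp only [mem_filter, SimpleGraph.mem_neighborFinset, mem_erase, mem_univ, true_and]
        constructor
        · rintro ⟨h, rfl⟩
          exact ⟨h.1.symm, rfl⟩
        · rintro ⟨h, rfl⟩
          exact ⟨⟨h.symm, h3⟩, rfl⟩
      rw [this, Finset.card_erase_of_mem (by simp [h4]), hfib]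
    · have : (G.neighborFinset v).filter (fun w => prt w = B) =
          (univ.filter (fun w : VV k r p => prt w = B)) := by
        ext w
        simp only [mem_filter, SimpleGraph.mem_neighborFinset, mem_univ, true_and]
        constructor
        · rintro ⟨h, rfl⟩
          rfl
        · rintro rfl
          exact ⟨⟨fun h => h4 (by rw [h]), h3⟩, rfl⟩
      rw [this, hfib]
    · rw [Finset.card_eq_zero, Finset.filter_eq_empty_iff]
      intro w hw hB
      rw [SimpleGraph.mem_neighborFinset] at hw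
      apply h3
      rw [← hB]
      exact hw.2
  rw [Finset.sum_congr rfl (fun v _ => h2 v)]
  rw [← Finset.sum_fiberwise (s := univ) (g := prt)]
  unfold cnt
  apply Finset.sum_congr rfl
  intro A _
  have h3 : ∀ v ∈ univ.filter (fun w : VV k r p => prt w = A),
      (∑ B, if ad Γ (prt v) B = true then (if prt v = B then sz k r p B - 1 else
        sz k r p B) else 0) = ∑ B, if ad Γ A B = true then (if A = B then
          sz k r p B - 1 else sz k r p B) else 0 := by
    intro v hv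
    simp only [mem_filter, mem_univ, true_and] at hv
    rw [hv]
  rw [Finset.sum_congr rfl h3, Finset.sum_const, ← Fintype.card_subtype, fib, smul_eq_mul,
    Finset.mul_sum]
  apply Finset.sum_congr rfl
  intro B _
  split_ifs with h4 h5
  · rw [h5]
  · rfl
  · simp

/-- the relation -/
theorem relPi {n q : ℕ} {P : SimpleGraph (Fin n) → Prop} (hP : GP n q P) (k r p : ℕ)
    [hpf : Fact p.Prime] (hp : 2 < p) (hn : r + k * p = n) (π : Equiv.Perm (Fin k))
    (mk : Fin k → Bool) (hmk : ∀ i, ∃ t, (π ^ t) i = i ∧ mc π mk t i = 1) {m : ℕ}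
    (Γ : Fin (k + 1) → Fin (k + 1) → Bool) (O : Fin m → Fin (k + 1) → Fin (k + 1) → Bool)
    (hΓs : ∀ A B, ad Γ A B = true → ad Γ (pip π A) (pip π B) = true)
    (hOs : ∀ j A B, ad (O j) A B = true → ad (O j) (pip π A) (pip π B) = true)
    (hd : ∀ i j, i ≠ j → ∀ A B, ad (O i) A B = true → ad (O j) A B = true → False)
    (hd0 : ∀ i A B, ad Γ A B = true → ad (O i) A B = true → False)
    (hO : ∀ j, ∃ A B : Fin k, ad (O j) A.succ B.succ = true)
    (hO0 : ∀ j A B, ad (O j) A B = true → A ≠ 0 ∧ B ≠ 0)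
    (htr : ∀ j (A B A' B' : Fin k), ad (O j) A.succ B.succ = true →
      ad (O j) A'.succ B'.succ = true →
      ∃ t : ℕ, ((π ^ t) A = A' ∧ (π ^ t) B = B') ∨ ((π ^ t) A = B' ∧ (π ^ t) B = A'))
    (hq : 2 * q < ∑ j, cnt (sz k r p) (O j)) :
    ∑ I : Finset (Fin m), (-1 : ℤ) ^ I.card * hv P (sz k r p) (addP Γ O I) = 0 := by
  classical
  have hp0 : NeZero p := ⟨by omega⟩
  obtain ⟨μ, hμ⟩ := IsCyclic.exists_generator (α := (ZMod p)ˣ)
  set mu : Fin k → (ZMod p)ˣ := fun b => if mk b then μ else 1 with hmu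
  have hm : ∀ i, ∃ t, (π ^ t) i = i ∧ mm π mu t i = μ := by
    intro i
    obtain ⟨t, h1, h2⟩ := hmk i
    exact ⟨t, h1, by rw [hmu, mm_mc, h2, pow_one]⟩
  have hcard : Fintype.card (VV k r p) = n := by
    rw [Fintype.card_sum, Fintype.card_prod, ZMod.card, Fintype.card_fin, Fintype.card_fin, hn]
  have hcardj : ∀ j, 2 * Nat.card (PG (O j) : SimpleGraph (VV k r p)).edgeSet =
      cnt (sz k r p) (O j) := fun j => card_PG k r p _
  have hmain := rel hP (V := VV k r p) hcard p (fun b : Fin k => tr b 1) (rc π mu)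
    (fun i j => tr_comm i j 1 1) ?_ ?_ (PG Γ) (fun j => PG (O j)) ?_ ?_ ?_ ?_ ?_ ?_ ?_ ?_ ?_
  · rw [← hmain]
    apply Finset.sum_congr rfl
    intro I _
    congr 1
    unfold hv
    rw [PG_sup]
    exact if_congr (PV_PG hP k r p _).symm rfl rfl
  · intro b
    rw [tr_pow]
    simp [tr_zero]
  · intro i
    obtain ⟨j, rfl⟩ := π.surjective i
    show _ * tr (π j) 1 * _ ∈ _
    rw [conj]
    exact tr_mem _ _
  · intro b u v h
    refine ⟨fun h' => h.1 ((tr b 1).injective h'), ?_⟩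
    rw [prt_tr, prt_tr]
    exact h.2
  · intro u v h
    refine ⟨fun h' => h.1 ((rc π mu).injective h'), ?_⟩
    rw [prt_rc, prt_rc]
    exact hΓs _ _ h.2
  · intro j b u v h
    refine ⟨fun h' => h.1 ((tr b 1).injective h'), ?_⟩
    rw [prt_tr, prt_tr]
    exact h.2
  · intro j u v h
    refine ⟨fun h' => h.1 ((rc π mu).injective h'), ?_⟩
    rw [prt_rc, prt_rc]
    exact hOs j _ _ h.2
  · intro i j hij
    rw [disjoint_iff]
    ext u v
    simp only [SimpleGraph.inf_adj, SimpleGraph.bot_adj, iff_false, not_and]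
    intro h1 h2
    exact hd i j hij _ _ h1.2 h2.2
  · intro i
    rw [disjoint_iff]
    ext u v
    simp only [SimpleGraph.inf_adj, SimpleGraph.bot_adj, iff_false, not_and]
    intro h1 h2
    exact hd0 i _ _ h1.2 h2.2
  · intro j
    obtain ⟨A, B, hAB⟩ := hO j
    by_cases hA : A = B
    · subst hA
      refine ⟨Sum.inr (A, 0), Sum.inr (A, 1), ?_, hAB⟩
      have : Fact (1 < p) := ⟨by omega⟩
      intro h
      have h2 := congrArg (fun w : VV k r p => match w with
        | .inl _ => (0 : ZMod p)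
        | .inr (_, u) => u) h
      exact zero_ne_one h2
    · refine ⟨Sum.inr (A, 0), Sum.inr (B, 0), ?_, hAB⟩
      intro h
      apply hA
      have h2 := congrArg (fun w : VV k r p => prt w) h
      exact Fin.succ_injective _ h2
  · intro j u v u' v' h h'
    rcases u with u | ⟨A, a⟩
    · exact absurd rfl (hO0 j _ _ h.2).1
    rcases v with v | ⟨B, b⟩
    · exact absurd rfl (hO0 j _ _ h.2).2
    rcases u' with u' | ⟨A', a'⟩
    · exact absurd rfl (hO0 j _ _ h'.2).1
    rcases v' with v' | ⟨B', b'⟩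
    · exact absurd rfl (hO0 j _ _ h'.2).2
    obtain ⟨t, ht⟩ := htr j A B A' B' h.2 h'.2
    by_cases hAB : A = B
    · subst hAB
      have hab : a ≠ b := fun hh => h.1 (by rw [hh])
      have e1 : A' = B' := by
        rcases ht with ⟨h1, h2⟩ | ⟨h1, h2⟩
        · rw [← h1, ← h2]
        · rw [← h1, ← h2]
      subst e1
      have hab' : a' ≠ b' := fun hh => h'.1 (by rw [hh])
      have e2 : (π ^ t) A = A' := by
        rcases ht with ⟨h1, h2⟩ | ⟨h1, h2⟩ <;> exact h1
      obtain ⟨g, hg, g1, g2⟩ := trans3 (r := r) π mu μ hμ hm A a b hab t a' b' hab'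
      rw [e2] at g1 g2
      exact ⟨g, hg, Or.inl ⟨g1, g2⟩⟩
    · rcases ht with ⟨h1, h2⟩ | ⟨h1, h2⟩
      · obtain ⟨g, hg, g1, g2⟩ := trans2 (r := r) π mu A B hAB a b t a' b'
        rw [h1] at g1
        rw [h2] at g2
        exact ⟨g, hg, Or.inl ⟨g1, g2⟩⟩
      · obtain ⟨g, hg, g1, g2⟩ := trans2 (r := r) π mu A B hAB a b t b' a'
        rw [h1] at g1
        rw [h2] at g2
        exact ⟨g, hg, Or.inr ⟨g1, g2⟩⟩
  · have h3 : ∑ j, cnt (sz k r p) (O j) =
      2 * ∑ j, Nat.card (PG (O j) : SimpleGraph (VV k r p)).edgeSet := by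
      rw [Finset.mul_sum]
      exact Finset.sum_congr rfl (fun j _ => (hcardj j).symm)
    rw [h3] at hq
    exact Nat.lt_of_mul_lt_mul_left hq

end Pool.Agent.W5h78.Karp
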